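import Pool.Agent.N266.TI.Stm

set_option autoImplicit false

/-!
Leaf `CALi` of project TI (thermal insulation, MP_ecdc1b_an).
-/

namespace Pool.Agent.N736.TI

open MeasureTheory Metric Set
open scoped ENNReal Pointwise ContDiff
open Pool.Agent.N266.TI

theorem continuous_pd {n : ℕ} {v : E n → ℝ} (hv : ContDiff ℝ 1 v) (i : Fin n) :
    Continuous (fun x => fderiv ℝ v x (e i)) :=
  (hv.continuous_fderiv (by norm_num)).clm_apply continuous_const

theorem continuous_gr {n : ℕ} {v : E n → ℝ} (hv : ContDiff ℝ 1 v) : Continuous (gr v) := by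
  unfold gr
  exact (PiLp.continuous_toLp 2 _).comp (continuous_pi fun i => continuous_pd hv i)

theorem continuous_lap {n : ℕ} {v : E n → ℝ} (hv : ContDiff ℝ 2 v) : Continuous (lap v) := by
  unfold lap
  refine continuous_finset_sum _ fun i _ => ?_
  refine continuous_pd ?_ i
  exact (hv.fderiv_right (m := 1) (by norm_num)).clm_apply contDiff_const

theorem continuousOn_dv {n : ℕ} {X : E n → E n} {U : Set (E n)} (hU : IsOpen U)
    (hX : ∀ x ∈ U, ContDiffAt ℝ 1 X x) : ContinuousOn (dv X) U := by
  have h1 : ContDiffOn ℝ 1 X U := fun x hx => (hX x hx).contDiffWithinAt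
  have h2 : ContinuousOn (fderiv ℝ X) U := h1.continuousOn_fderiv_of_isOpen hU (by norm_num)
  unfold dv
  refine continuousOn_finset_sum _ fun i _ => ?_
  have h3 : ContinuousOn (fun x => fderiv ℝ X x (e i)) U := h2.clm_apply continuousOn_const
  have h4 : Continuous (fun y : E n => y i) := by fun_prop
  exact h4.comp_continuousOn h3

theorem CALi : Pool.Agent.N266.TI.CALi := by
  intro hGG hPI n K δ β φ u hK hKne hδ hβ hφ1 hφc hu hpos hgr
  have hu1 : ContDiff ℝ 1 u := hu.of_le (by norm_num)
  set Ω : Set (E n) := thickening δ K with hΩ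
  set X : E n → E n := fun y => (φ y ^ 2 / u y) • gr u y with hX
  by_cases hB : bdryInt Ω (fun x => φ x ^ 2) = ⊤
  · unfold energy
    rw [hB, ENNReal.mul_top (by simpa using hβ)]
    simp
  have hcl : ∀ x ∈ closure Ω, infDist x K ≤ δ := by
    intro x hx
    have h1 : closure Ω ⊆ {x | infDist x K ≤ δ} := by
      refine closure_minimal ?_ (isClosed_le (continuous_infDist_pt K) continuous_const)
      intro y hy
      rw [hΩ, mem_thickening_iff_infDist_lt hKne] at hy
      exact hy.le
    exact h1 hx
  have hfr : ∀ x ∈ frontier Ω, infDist x K = δ := by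
    intro x hx
    refine le_antisymm (hcl x (frontier_subset_closure hx)) ?_
    by_contra hlt
    push Not at hlt
    have hx2 : x ∈ Ω := by
      rw [hΩ, mem_thickening_iff_infDist_lt hKne]; exact hlt
    have := (isOpen_thickening (δ := δ) (E := K)).inter_frontier_eq
    have hmem : x ∈ thickening δ K ∩ frontier (thickening δ K) := ⟨hx2, hx⟩
    rw [this] at hmem
    exact hmem
  set N : Set (E n) := {x | 3 / 4 * δ < infDist x K ∧ infDist x K < 3 / 2 * δ} with hN
  have hNo : IsOpen N :=
    (isOpen_lt continuous_const (continuous_infDist_pt K)).inter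
      (isOpen_lt (continuous_infDist_pt K) continuous_const)
  set U : Set (E n) := {x | infDist x K < 3 / 2 * δ} with hU
  have hUo : IsOpen U := isOpen_lt (continuous_infDist_pt K) continuous_const
  have hclU : closure Ω ⊆ U := by
    intro x hx
    have := hcl x hx
    show infDist x K < 3 / 2 * δ
    linarith
  have hXU : ∀ x ∈ U, ContDiffAt ℝ 1 X x := fun x hx =>
    (hPI n φ u x hφ1 hu (hpos x (le_of_lt hx))).1
  have hbdd : Bornology.IsBounded Ω := hK.isBounded.thickening
  have hgg := hGG n Ω N X (fun x => φ x ^ 2) β hβ isOpen_thickening hbdd hNo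
    (fun x hx => by
      have := hfr x hx
      refine ⟨?_, ?_⟩ <;> rw [this] <;> linarith)
    (fun x hx => hXU x (hclU hx))
    (fun x hx => by
      have h1 := hgr x hx.1.le hx.2.le
      have h2 := hpos x hx.2.le
      rw [hX]
      simp only
      rw [norm_smul, Real.norm_of_nonneg (by positivity)]
      calc φ x ^ 2 / u x * ‖gr u x‖ ≤ φ x ^ 2 / u x * (β * u x) := by gcongr
        _ = β * φ x ^ 2 := by field_simp)
    (fun x => sq_nonneg _) hB
  have hcomp : IsCompact (closure Ω) := hbdd.isCompact_closure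
  have hi1 : IntegrableOn (dv X) Ω := by
    have : IntegrableOn (dv X) (closure Ω) :=
      ((continuousOn_dv hUo hXU).mono hclU).integrableOn_compact hcomp
    exact this.mono_set subset_closure
  have hi2 : IntegrableOn (fun x => φ x ^ 2 * (- lap u x) / u x) Ω := by
    have : IntegrableOn (fun x => φ x ^ 2 * (- lap u x) / u x) (closure Ω) := by
      refine ContinuousOn.integrableOn_compact hcomp ?_
      refine ContinuousOn.div ?_ hu1.continuous.continuousOn ?_
      · exact ((hφ1.continuous.pow 2).mul (continuous_lap hu).neg).continuousOn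
      · intro x hx
        have h1 := hcl x hx
        exact (hpos x (by linarith)).ne'
    exact this.mono_set subset_closure
  have hi3 : IntegrableOn (fun x => ‖gr φ x‖ ^ 2) Ω := by
    have : IntegrableOn (fun x => ‖gr φ x‖ ^ 2) (closure Ω) :=
      ((continuous_gr hφ1).norm.pow 2).continuousOn.integrableOn_compact hcomp
    exact this.mono_set subset_closure
  have hint : (∫ x in Ω, dv X x) + (∫ x in Ω, φ x ^ 2 * (- lap u x) / u x) ≤
      ∫ x in Ω, ‖gr φ x‖ ^ 2 := by
    rw [← integral_add hi1 hi2]
    refine setIntegral_mono_on (hi1.add hi2) hi3 isOpen_thickening.measurableSet ?_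
    intro x hx
    have h1 := hcl x (subset_closure hx)
    exact (hPI n φ u x hφ1 hu (hpos x (by linarith))).2
  have hfin : (∫ x in Ω, φ x ^ 2 * (- lap u x) / u x) ≤
      (∫ x in Ω, ‖gr φ x‖ ^ 2) + β * (bdryInt Ω (fun x => φ x ^ 2)).toReal := by
    linarith
  unfold energy
  calc ENNReal.ofReal (∫ x in Ω, φ x ^ 2 * (- lap u x) / u x)
      ≤ ENNReal.ofReal ((∫ x in Ω, ‖gr φ x‖ ^ 2) +
          β * (bdryInt Ω (fun x => φ x ^ 2)).toReal) := ENNReal.ofReal_le_ofReal hfin
    _ ≤ ENNReal.ofReal (∫ x in Ω, ‖gr φ x‖ ^ 2) +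
          ENNReal.ofReal (β * (bdryInt Ω (fun x => φ x ^ 2)).toReal) := ENNReal.ofReal_add_le
    _ = ENNReal.ofReal (∫ x in Ω, ‖gr φ x‖ ^ 2) +
          ENNReal.ofReal β * bdryInt Ω (fun x => φ x ^ 2) := by
        rw [ENNReal.ofReal_mul hβ.le, ENNReal.ofReal_toReal hB]

end Pool.Agent.N736.TI
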